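import Pool.Agent.H81.PC.Lx

/-!
# Pairs of times and closed labels

If two times of one window, given the line, see related frames with probability `p1`, then there
is a label of the window, a function of the line, which is related to the frame with probability
at least `p1` (`th_ev`). For frames which are near each other: `th_frame`.
-/

set_option autoImplicit false

namespace Pool.PC

open Finset Real
open Pool.Agent.H49.Ent Pool.Agent.H32.Dense Pool.STK Pool.KA Pool.KSAT Pool.K2S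

variable {m J : ℕ}

open Classical in
/-- **From pairs to a label.** -/
theorem th_ev {Ω S V : Type} [Fintype Ω] [Nonempty V] {p : Ω → ℝ} (hp : IsLaw p) (b : Ω → S)
    (f : Ω → V) (R : V → V → Prop) : ∃ φ : S → V,
    (∀ ω, 0 < p ω → ∃ ω', 0 < p ω' ∧ b ω' = b ω ∧ φ (b ω) = f ω') ∧
    Pe (dbl p b) (fun v => R (f v.1) (f v.2)) ≤ Pe p (fun ω => R (φ (b ω)) (f ω)) := by
  have hp0 := hp.nonneg
  obtain ⟨g, hg⟩ : ∃ g : S → V → ℝ, g = fun s x =>
    ∑ ω, if b ω = s ∧ R x (f ω) then p ω else 0 := ⟨_, rfl⟩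
  have hg0 : ∀ s x, 0 ≤ g s x := by
    intro s x
    rw [hg]
    exact Finset.sum_nonneg fun ω _ => by split_ifs; exacts [hp0 ω, le_rfl]
  -- the best value
  have hex : ∀ s, ∃ x : V, (∀ ω, 0 < p ω → b ω = s → g s (f ω) ≤ g s x) ∧
      ((∃ ω, 0 < p ω ∧ b ω = s) → ∃ ω', 0 < p ω' ∧ b ω' = s ∧ x = f ω') := by
    intro s
    by_cases h : ∃ ω, 0 < p ω ∧ b ω = s
    · obtain ⟨ω₀, h0⟩ := h
      obtain ⟨ω₁, h1, h2⟩ := Finset.exists_max_image
        (Finset.univ.filter fun ω => 0 < p ω ∧ b ω = s) (fun ω => g s (f ω))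
        ⟨ω₀, Finset.mem_filter.mpr ⟨Finset.mem_univ _, h0⟩⟩
      have h3 := (Finset.mem_filter.mp h1).2
      exact ⟨f ω₁, fun ω hω hb => h2 ω (Finset.mem_filter.mpr ⟨Finset.mem_univ _, hω, hb⟩),
        fun _ => ⟨ω₁, h3.1, h3.2, rfl⟩⟩
    · exact ⟨Classical.arbitrary V, fun ω hω hb => absurd ⟨ω, hω, hb⟩ h,
        fun h' => absurd h' h⟩
  choose φ hφ1 hφ2 using hex
  refine ⟨φ, fun ω hω => hφ2 (b ω) ⟨ω, hω, rfl⟩, ?_⟩
  -- the pairs
  have e1 : Pe (dbl p b) (fun v => R (f v.1) (f v.2)) =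
      ∑ ω, p ω * (g (b ω) (f ω) / law p b (b ω)) := by
    rw [Pe_eq, Fintype.sum_prod_type]
    refine Finset.sum_congr rfl fun ω _ => ?_
    rw [hg]
    simp only
    rw [Finset.sum_div, Finset.mul_sum]
    refine Finset.sum_congr rfl fun ω' _ => ?_
    unfold dbl glue
    by_cases h1 : b ω = b ω'
    · by_cases h2 : R (f ω) (f ω')
      · rw [if_pos h2, if_pos h1, if_pos ⟨h1.symm, h2⟩]
        ring
      · rw [if_neg h2, if_neg (fun h => h2 h.2)]
        simp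
    · have h3 : ¬ (b ω' = b ω ∧ R (f ω) (f ω')) := fun h => h1 h.1.symm
      rw [if_neg h3, if_neg h1]
      simp
  have e2 : Pe p (fun ω => R (φ (b ω)) (f ω)) =
      ∑ ω, p ω * (g (b ω) (φ (b ω)) / law p b (b ω)) := by
    have h1 : ∀ ω, p ω * (g (b ω) (φ (b ω)) / law p b (b ω)) =
        ∑ ω', if b ω' = b ω ∧ R (φ (b ω')) (f ω') then p ω' * (p ω / law p b (b ω')) else 0 := by
      intro ω
      rw [hg]
      simp only
      rw [Finset.sum_div, Finset.mul_sum]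
      refine Finset.sum_congr rfl fun ω' _ => ?_
      by_cases h1 : b ω' = b ω
      · rw [h1]
        split_ifs
        · ring
        · simp
      · rw [if_neg (fun h => h1 h.1), if_neg (fun h => h1 h.1)]
        simp
    rw [Finset.sum_congr rfl fun ω _ => h1 ω, Finset.sum_comm, Pe_eq]
    refine Finset.sum_congr rfl fun ω' _ => ?_
    by_cases h2 : R (φ (b ω')) (f ω')
    · rw [if_pos h2]
      have h3 : ∀ ω, (if b ω' = b ω ∧ R (φ (b ω')) (f ω') then
          p ω' * (p ω / law p b (b ω')) else 0) =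
          p ω' / law p b (b ω') * (if b ω = b ω' then p ω else 0) := by
        intro ω
        by_cases h : b ω' = b ω
        · rw [if_pos ⟨h, h2⟩, if_pos h.symm]
          ring
        · rw [if_neg (fun h' => h h'.1), if_neg (fun h' => h h'.symm), mul_zero]
      rw [Finset.sum_congr rfl fun ω _ => h3 ω, ← Finset.mul_sum]
      have h4 : (∑ ω, if b ω = b ω' then p ω else 0) = law p b (b ω') := by
        unfold law
        rfl
      rw [h4]
      rcases (hp0 ω').eq_or_lt with h5 | h5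
      · rw [← h5]
        simp
      · rw [div_mul_cancel₀ _ (law_pos hp0 b h5).ne']
    · rw [if_neg h2]
      symm
      refine Finset.sum_eq_zero fun ω _ => ?_
      rw [if_neg (fun h => h2 h.2)]
  rw [e1, e2]
  refine Finset.sum_le_sum fun ω _ => ?_
  rcases (hp0 ω).eq_or_lt with h5 | h5
  · rw [← h5]
    simp
  · exact mul_le_mul_of_nonneg_left (div_le_div_of_nonneg_right (hφ1 (b ω) ω h5 rfl)
      (law_pos hp0 b h5).le) h5.le

theorem rnd_near (k : ℕ) (x : ℝ) : |((⌊(2 : ℝ) ^ k * x⌋ : ℤ) : ℝ) / 2 ^ k - x| ≤ 1 / 2 ^ k := by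
  have h2 : (0 : ℝ) < 2 ^ k := by positivity
  have f1 := Int.floor_le (2 ^ k * x)
  have f2 := Int.lt_floor_add_one (2 ^ k * x)
  have e : ((⌊(2 : ℝ) ^ k * x⌋ : ℤ) : ℝ) / 2 ^ k - x =
      (((⌊(2 : ℝ) ^ k * x⌋ : ℤ) : ℝ) - 2 ^ k * x) / 2 ^ k := by
    field_simp
  rw [e, abs_div, abs_of_pos h2]
  refine div_le_div_of_nonneg_right ?_ h2.le
  rw [abs_le]
  constructor <;> linarith

/-- **Frames of two times.** If the frames of two times of a window, given the line, agree to `k`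
digits with probability `p1`, then the frame is closed to `k` digits on an event of probability
`p1`. -/
theorem th_frame (F : Fam m J) (i0 : Fin m) (w k : ℕ) (z' : F.Ω → Fin m → ℝ) :
    ∃ z : F.Ω → Fin m → ℝ,
      (∃ ψ : (((Fin m → ℝ) × (Fin m → ℝ)) × F.ζ × ℕ) → Fin m → ℝ, ∀ ω, z ω = ψ (slam F w ω)) ∧
      (∀ ω j, ∃ a : ℤ, z ω j = a / 2 ^ k) ∧ (∀ ω, z ω i0 = 0) ∧
      Pe (dbl F.p (slam F w)) (fun u => ∀ j, j ≠ i0 → |z' u.1 j - z' u.2 j| ≤ 1 / 2 ^ k) ≤
        Pe F.p (fun ω => ∀ j, j ≠ i0 → |z' ω j - z ω j| ≤ 2 / 2 ^ k) := by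
  obtain ⟨φ, -, h2⟩ := th_ev F.isLaw (slam F w) z'
    (fun x y => ∀ j, j ≠ i0 → |x j - y j| ≤ 1 / 2 ^ k)
  refine ⟨fun ω j => if j = i0 then 0 else (⌊(2 : ℝ) ^ k * φ (slam F w ω) j⌋ : ℤ) / 2 ^ k,
    ⟨fun s j => if j = i0 then 0 else (⌊(2 : ℝ) ^ k * φ s j⌋ : ℤ) / 2 ^ k, fun ω => rfl⟩, ?_, ?_, ?_⟩
  · intro ω j
    by_cases h : j = i0
    · exact ⟨0, by simp [h]⟩
    · exact ⟨⌊(2 : ℝ) ^ k * φ (slam F w ω) j⌋, by simp [h]⟩
  · intro ω
    simp
  · refine h2.trans (Pe_mono F.isLaw ?_)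
    intro ω h j hj
    have h3 := h j hj
    have h4 := rnd_near k (φ (slam F w ω) j)
    simp only
    rw [if_neg hj]
    have e : z' ω j - (⌊(2 : ℝ) ^ k * φ (slam F w ω) j⌋ : ℤ) / 2 ^ k =
        -((((⌊(2 : ℝ) ^ k * φ (slam F w ω) j⌋ : ℤ) : ℝ) / 2 ^ k - φ (slam F w ω) j) +
          (φ (slam F w ω) j - z' ω j)) := by ring
    rw [e, abs_neg]
    refine (abs_add_le _ _).trans ?_
    have e2 : (2 : ℝ) / 2 ^ k = 1 / 2 ^ k + 1 / 2 ^ k := by ring
    rw [e2]
    exact add_le_add h4 h3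

end Pool.PC
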