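import Pool.Agent.H92.PC.Mesh

/-!
# A cell of directions with uniform activity

`A` is the entropy of the directions as a function of the depth: monotone, Lipschitz, and with
growth at least `del` above `qk`. There are arbitrarily short rational cells above `qk` in which
`A` is nearly affine with slope at least `del / 2` (`qcell`); in such a cell the growth is at
least `del / 4` at all places and all scales which are not too short (`qcell_act`).
-/

set_option autoImplicit false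

namespace Pool.PC

open Finset Pool.PC.Msh

/-- **Nearly affine cells of all small rational lengths.** -/
theorem qcell_all {A : ℝ → ℝ} (hA : Monotone A) {L del qk x : ℝ} (hL : 0 ≤ L)
    (hLip : ∀ y₁ y₂, y₁ ≤ y₂ → A y₂ - A y₁ ≤ L * (y₂ - y₁)) (hdel : 0 < del) (hx : 0 < x)
    (hlow : del * x ≤ A (qk + x) - A qk) {e : ℝ} (he : 0 < e) :
    ∃ d₀ : ℝ, 0 < d₀ ∧ ∀ d₂ : ℚ, 0 < d₂ → (d₂ : ℝ) < d₀ → ∃ qa : ℚ, qk < qa ∧
      (qa : ℝ) + d₂ < qk + x ∧ ∃ v, del / 2 ≤ v ∧ v ≤ L + e ∧ Aff A qa d₂ v (e * d₂) := by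
  classical
  -- constants
  obtain ⟨e₁, he₁⟩ : ∃ e₁, e₁ = min e (del / 8) := ⟨_, rfl⟩
  have he1 : 0 < e₁ := by rw [he₁]; exact lt_min he (by positivity)
  have he1e : e₁ ≤ e := by rw [he₁]; exact min_le_left _ _
  have he1d : e₁ ≤ del / 8 := by rw [he₁]; exact min_le_right _ _
  obtain ⟨ρ, hρ⟩ : ∃ ρ, ρ = del * x / (8 * (L + 1)) := ⟨_, rfl⟩
  have hL1 : 0 < L + 1 := by linarith only [hL]
  have hρ0 : 0 < ρ := by rw [hρ]; positivity
  have hρL : L * ρ ≤ del * x / 8 := by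
    rw [hρ]
    have : L * (del * x / (8 * (L + 1))) = del * x / 8 * (L / (L + 1)) := by
      field_simp
    rw [this]
    have h1 : L / (L + 1) ≤ 1 := by rw [div_le_one hL1]; linarith only
    have h2 : 0 ≤ del * x / 8 := by positivity
    nlinarith only [h1, h2]
  obtain ⟨d₀, hd₀, hmesh⟩ := mesh hA (a := qk) (b := qk + x) (by linarith) he1 hρ0
  -- the length of the cells
  obtain ⟨D, hD⟩ : ∃ D, D = min d₀ (min (x / 8) (del * x / (32 * (L + 1)))) := ⟨_, rfl⟩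
  have hD0 : 0 < D := by
    rw [hD]
    exact lt_min hd₀ (lt_min (by positivity) (by positivity))
  refine ⟨D, hD0, fun d hd0 hdD => ?_⟩
  have hd0' : (0 : ℝ) < d := by exact_mod_cast hd0
  have hdd₀ : (d : ℝ) < d₀ := hdD.trans_le (by rw [hD]; exact min_le_left _ _)
  have hdx : (d : ℝ) < x / 8 :=
    hdD.trans_le (by rw [hD]; exact (min_le_right _ _).trans (min_le_left _ _))
  have hdL : (d : ℝ) < del * x / (32 * (L + 1)) :=
    hdD.trans_le (by rw [hD]; exact (min_le_right _ _).trans (min_le_right _ _))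
  have hdL' : L * d ≤ del * x / 32 := by
    have h1 : (L + 1) * d ≤ del * x / 32 := by
      have h2 := mul_le_mul_of_nonneg_left hdL.le hL1.le
      have h3 : (L + 1) * (del * x / (32 * (L + 1))) = del * x / 32 := by field_simp
      rw [h3] at h2
      exact h2
    nlinarith only [hd0', h1]
  obtain ⟨x₀, hx₀, hx₀'⟩ := exists_rat_btwn (show qk < qk + d by linarith only [hd0'])
  -- the number of the cells
  obtain ⟨n, hn⟩ : ∃ n : ℕ, n = ⌊(qk + x - x₀) / d⌋₊ - 1 := ⟨_, rfl⟩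
  have hbig : (2 : ℝ) ≤ (qk + x - x₀) / d := by
    rw [le_div_iff₀ hd0']
    linarith only [hdx, hx₀, hx₀']
  have hfl2 : 2 ≤ ⌊(qk + x - x₀) / d⌋₊ := Nat.le_floor (by exact_mod_cast hbig)
  have hnfl : (n : ℝ) = ⌊(qk + x - x₀) / d⌋₊ - 1 := by
    rw [hn, Nat.cast_sub (by omega)]
    simp
  have hn1 : (n : ℝ) * d ≤ qk + x - x₀ - d := by
    have h1 := Nat.floor_le (show 0 ≤ (qk + x - x₀) / d by linarith only [hbig])
    have h2 : (⌊(qk + x - x₀) / d⌋₊ : ℝ) * d ≤ qk + x - x₀ := by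
      have := mul_le_mul_of_nonneg_right h1 hd0'.le
      rwa [div_mul_cancel₀ _ hd0'.ne'] at this
    rw [hnfl]
    linarith only [h2]
  have hn2 : qk + x - x₀ - 2 * d < n * d := by
    have h1 := Nat.lt_floor_add_one ((qk + x - x₀) / d)
    have h2 : qk + x - x₀ < (⌊(qk + x - x₀) / d⌋₊ + 1) * d := by
      have := mul_lt_mul_of_pos_right h1 hd0'
      rwa [div_mul_cancel₀ _ hd0'.ne'] at this
    rw [hnfl]
    linarith only [h2]
  -- the bad cells
  obtain ⟨B, hB⟩ : ∃ B : Finset ℕ, B = (range n).filter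
    (fun i : ℕ => ∀ v, 0 ≤ v → ¬ Aff A (x₀ + (i : ℝ) * d) d v (e₁ * d)) := ⟨_, rfl⟩
  have hBn : B ⊆ range n := by rw [hB]; exact filter_subset _ _
  have hBc : (B.card : ℝ) * d ≤ ρ := hmesh d hd0' hdd₀ x₀ n hx₀.le (by linarith only [hx₀, hx₀', hn1]) B hBn (by
    intro i hi
    rw [hB] at hi
    exact (mem_filter.1 hi).2)
  -- the increments
  have hinc : ∀ i : ℕ, A (x₀ + ((i + 1 : ℕ) : ℝ) * d) - A (x₀ + i * d) ≤ L * d := by
    intro i
    have h1 : x₀ + (i : ℝ) * d ≤ x₀ + ((i + 1 : ℕ) : ℝ) * d := by push_cast; linarith only [hx₀, hx₀']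
    refine (hLip _ _ h1).trans (le_of_eq ?_)
    push_cast
    ring
  have htel : ∑ i ∈ range n, (A (x₀ + ((i + 1 : ℕ) : ℝ) * d) - A (x₀ + i * d)) =
      A (x₀ + n * d) - A x₀ := by
    rw [Finset.sum_range_sub (fun i : ℕ => A (x₀ + i * d))]
    simp
  have htot : 3 / 4 * (del * x) ≤ A (x₀ + n * d) - A x₀ := by
    have h1 := hLip (x₀ + n * d) (qk + x) (by linarith only [hx₀, hx₀', hn1])
    have h2 := hLip qk x₀ hx₀.le
    have h3 : L * (qk + x - (x₀ + n * d)) ≤ L * (2 * d) :=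
      mul_le_mul_of_nonneg_left (by linarith only [hn2]) hL
    have h4 : L * (x₀ - qk) ≤ L * d := mul_le_mul_of_nonneg_left (by linarith only [hx₀']) hL
    have h5 : 0 < del * x := by positivity
    linarith only [hlow, hdL', h1, h2, h3, h4, h5]
  obtain ⟨i, hi, hiv⟩ : ∃ i ∈ range n \ B,
      5 / 8 * del * d ≤ A (x₀ + ((i + 1 : ℕ) : ℝ) * d) - A (x₀ + i * d) := by
    by_contra hcon
    push Not at hcon
    have h1 : ∑ i ∈ range n \ B, (A (x₀ + ((i + 1 : ℕ) : ℝ) * d) - A (x₀ + i * d)) ≤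
        ∑ _i ∈ range n \ B, 5 / 8 * del * (d : ℝ) :=
      Finset.sum_le_sum fun i hi => (hcon i hi).le
    have h2 : ∑ i ∈ B, (A (x₀ + ((i + 1 : ℕ) : ℝ) * d) - A (x₀ + i * d)) ≤
        ∑ _i ∈ B, L * (d : ℝ) := Finset.sum_le_sum fun i _ => hinc i
    rw [Finset.sum_const, nsmul_eq_mul] at h1 h2
    have h3 := Finset.sum_sdiff (f := fun i : ℕ =>
      A (x₀ + ((i + 1 : ℕ) : ℝ) * d) - A (x₀ + i * d)) hBn
    rw [htel] at h3
    have h4 : ((range n \ B).card : ℝ) ≤ n := by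
      have := card_le_card (sdiff_subset : range n \ B ⊆ range n)
      rw [card_range] at this
      exact_mod_cast this
    have h5 : ((range n \ B).card : ℝ) * (5 / 8 * del * d) ≤ n * (5 / 8 * del * d) :=
      mul_le_mul_of_nonneg_right h4 (by positivity)
    have h6 : (n : ℝ) * (5 / 8 * del * d) ≤ 5 / 8 * del * x := by
      have h7 : (n : ℝ) * d ≤ x := by linarith only [hx₀, hx₀', hn1]
      have := mul_le_mul_of_nonneg_left h7 (show 0 ≤ 5 / 8 * del by positivity)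
      linarith only [this]
    have h7 : (B.card : ℝ) * (L * d) ≤ L * ρ := by
      have := mul_le_mul_of_nonneg_left hBc hL
      linarith only [this]
    have h8 : 0 < del * x := by positivity
    nlinarith only [hρL, htot, h1, h2, h3, h5, h7, hdel, hx₀, hx₀', hn1]
  obtain ⟨hin, hiB⟩ := mem_sdiff.1 hi
  have hin' : i < n := mem_range.1 hin
  obtain ⟨v, hv0, hv⟩ : ∃ v, 0 ≤ v ∧ Aff A (x₀ + i * d) d v (e₁ * d) := by
    by_contra hcon
    push Not at hcon
    refine hiB ?_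
    rw [hB]
    exact mem_filter.2 ⟨hin, hcon⟩
  have hend := hv (x₀ + i * d + d) (by linarith only [hx₀, hx₀']) le_rfl
  have e1 : (x₀ : ℝ) + ((i + 1 : ℕ) : ℝ) * d = x₀ + i * d + d := by push_cast; ring
  rw [e1] at hiv
  have e2 : v * ((x₀ : ℝ) + i * d + d - (x₀ + i * d)) = v * d := by ring
  rw [e2] at hend
  obtain ⟨hend1, hend2⟩ := abs_le.1 hend
  refine ⟨x₀ + i * d, ?_, ?_, v, ?_, ?_, ?_⟩
  · push_cast
    have : (0 : ℝ) ≤ i * d := by positivity
    linarith only [hx₀, this]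
  · push_cast
    have h1 : ((i : ℝ) + 1) ≤ n := by exact_mod_cast hin'
    have h2 := mul_le_mul_of_nonneg_right h1 hd0'.le
    linarith only [hx₀, hx₀', hn1, h2]
  · have h1 : (5 / 8 * del - e₁) * d ≤ v * d := by nlinarith only [hiv, hend2]
    have h2 := le_of_mul_le_mul_right h1 hd0'
    linarith only [he1d, h2]
  · have h0 := hLip (x₀ + i * d) (x₀ + i * d + d) (by linarith only [hx₀, hx₀'])
    have h1 : v * d ≤ (L + e₁) * d := by
      have e3 : L * ((x₀ : ℝ) + i * d + d - (x₀ + i * d)) = L * d := by ring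
      rw [e3] at h0
      nlinarith only [hend1, h0]
    have h2 := le_of_mul_le_mul_right h1 hd0'
    linarith only [he1e, h2]
  · intro y hy1 hy2
    push_cast at hy1 hy2 ⊢
    refine (hv y hy1 hy2).trans ?_
    exact mul_le_mul_of_nonneg_right he1e hd0'.le

/-- **A nearly affine cell.** -/
theorem qcell {A : ℝ → ℝ} (hA : Monotone A) {L del qk x : ℝ} (hL : 0 ≤ L)
    (hLip : ∀ y₁ y₂, y₁ ≤ y₂ → A y₂ - A y₁ ≤ L * (y₂ - y₁)) (hdel : 0 < del) (hx : 0 < x)
    (hlow : del * x ≤ A (qk + x) - A qk) {e : ℝ} (he : 0 < e) {δ : ℝ} (hδ : 0 < δ) :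
    ∃ d₂ qa : ℚ, 0 < d₂ ∧ (d₂ : ℝ) < δ ∧ qk < qa ∧ (qa : ℝ) + d₂ < qk + x ∧
      ∃ v, del / 2 ≤ v ∧ v ≤ L + e ∧ Aff A qa d₂ v (e * d₂) := by
  obtain ⟨d₀, hd₀, h⟩ := qcell_all hA hL hLip hdel hx hlow he
  obtain ⟨d, hd0, hdD⟩ := exists_rat_btwn (lt_min hd₀ hδ)
  have hd0' : (0 : ℚ) < d := by exact_mod_cast hd0
  obtain ⟨qa, h1, h2, h3⟩ := h d hd0' (hdD.trans_le (min_le_left _ _))
  exact ⟨d, qa, hd0', hdD.trans_le (min_le_right _ _), h1, h2, h3⟩

/-- **Uniform activity in the cell.** -/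
theorem qcell_act {A : ℝ → ℝ} {del qa d v e : ℝ} (hv : del / 2 ≤ v)
    (hA : Aff A qa d v (e * d)) {q y : ℝ} (hq : qa ≤ q) (hqy : q + y ≤ qa + d)
    (hy : 8 * e * d ≤ del * y) (hy0 : 0 ≤ y) : del / 4 * y ≤ A (q + y) - A q := by
  obtain ⟨h1, h2⟩ := abs_le.1 (hA q hq (by linarith only [hqy, hy0]))
  obtain ⟨h3, h4⟩ := abs_le.1 (hA (q + y) (by linarith only [hq, hy0]) hqy)
  have h5 : del / 2 * y ≤ v * y := mul_le_mul_of_nonneg_right hv hy0
  nlinarith only [hy, h2, h3, h5]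

end Pool.PC
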