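import Mathlib

/-!
# Runs of bad cells

A function on a finite mesh does not drop on good cells, and drops at most by a multiple of the
length over a run of bad cells, if the cells after the run have few defects. The cells after
which there are many defects are few (`sun`); the function drops little (`runs_thm`).
-/

set_option autoImplicit false

namespace Pool.PC

open Finset

/-- The cell `j` is followed by many defects: the next `k` cells have more than `a k` defects. -/
def Rbad (D : ℕ → ℝ) (a : ℝ) (N j : ℕ) : Prop :=
  ∃ k : ℕ, 1 ≤ k ∧ j + k ≤ N ∧ a * k < ∑ l ∈ Ico j (j + k), D l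

open Classical in
/-- **Discrete rising sun lemma.** -/
theorem sun {D : ℕ → ℝ} (hD : ∀ l, 0 ≤ D l) {a : ℝ} (ha : 0 ≤ a) (N : ℕ) :
    ∀ r s : ℕ, s + r = N →
      a * ((Ico s N).filter fun j => Rbad D a N j).card ≤ ∑ l ∈ Ico s N, D l := by
  intro r
  induction r using Nat.strong_induction_on with
  | _ r ih =>
    intro s hs
    rcases Nat.eq_zero_or_pos r with h0 | h0
    · have : s = N := by omega
      subst this
      simp
    by_cases hb : Rbad D a N s
    · obtain ⟨k, hk, hkN, hsum⟩ := hb
      have h1 := ih (r - k) (by omega) (s + k) (by omega)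
      have h2 : ((Ico s N).filter fun j => Rbad D a N j).card ≤
          k + ((Ico (s + k) N).filter fun j => Rbad D a N j).card := by
        have h3 : (Ico s N).filter (fun j => Rbad D a N j) ⊆
            Ico s (s + k) ∪ (Ico (s + k) N).filter fun j => Rbad D a N j := by
          intro j hj
          obtain ⟨h4, h5⟩ := mem_filter.1 hj
          have h6 := mem_Ico.1 h4
          by_cases h7 : j < s + k
          · exact mem_union_left _ (mem_Ico.2 ⟨h6.1, h7⟩)
          · exact mem_union_right _ (mem_filter.2 ⟨mem_Ico.2 ⟨by omega, h6.2⟩, h5⟩)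
        refine (card_le_card h3).trans ((card_union_le _ _).trans ?_)
        rw [Nat.card_Ico, Nat.add_sub_cancel_left]
      have h4 : (((Ico s N).filter fun j => Rbad D a N j).card : ℝ) ≤
          k + ((Ico (s + k) N).filter fun j => Rbad D a N j).card := by exact_mod_cast h2
      have h5 : ∑ l ∈ Ico s N, D l = ∑ l ∈ Ico s (s + k), D l + ∑ l ∈ Ico (s + k) N, D l :=
        (Finset.sum_Ico_consecutive D (by omega) hkN).symm
      rw [h5]
      have h6 := mul_le_mul_of_nonneg_left h4 ha
      rw [mul_add] at h6
      linarith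
    · have h1 := ih (r - 1) (by omega) (s + 1) (by omega)
      have h2 : (Ico s N).filter (fun j => Rbad D a N j) ⊆
          (Ico (s + 1) N).filter fun j => Rbad D a N j := by
        intro j hj
        obtain ⟨h4, h5⟩ := mem_filter.1 hj
        have h6 := mem_Ico.1 h4
        refine mem_filter.2 ⟨mem_Ico.2 ⟨?_, h6.2⟩, h5⟩
        rcases h6.1.eq_or_lt with h7 | h7
        · exact absurd (h7 ▸ h5) hb
        · omega
      have h4 : (((Ico s N).filter fun j => Rbad D a N j).card : ℝ) ≤
          ((Ico (s + 1) N).filter fun j => Rbad D a N j).card := by exact_mod_cast card_le_card h2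
      have h5 : ∑ l ∈ Ico s N, D l = D s + ∑ l ∈ Ico (s + 1) N, D l :=
        Finset.sum_eq_sum_Ico_succ_bot (by omega) D
      rw [h5]
      have h6 := mul_le_mul_of_nonneg_left h4 ha
      have h7 := hD s
      linarith

open Classical in
/-- The bad cells are few. -/
theorem sun_card {D : ℕ → ℝ} (hD : ∀ l, 0 ≤ D l) {a : ℝ} (ha : 0 ≤ a) (N : ℕ) :
    a * ((range N).filter fun j => Rbad D a N j).card ≤ ∑ l ∈ range N, D l := by
  have := sun hD ha N N 0 (by omega)
  rwa [← Finset.range_eq_Ico] at this

open Classical in
/-- **Runs of bad cells.** `G` are the good cells, `R` is the rotation, `D` are the defects of the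
rows, `d` is the length of a cell. -/
theorem runs_thm {Θ R D : ℕ → ℝ} {C ε η d e : ℝ} {n N : ℕ} (G : Finset ℕ) (hC : 0 ≤ C)
    (hε : 0 ≤ ε) (hη : 0 ≤ η) (hd : 0 ≤ d) (he : 0 ≤ e) (hD : ∀ l, 0 ≤ D l) (hnN : n ≤ N)
    (hR : Monotone R)
    (hG : ∀ i ∈ G, i < n → Θ i ≤ Θ (i + 1) + ε * d)
    (hX : ∀ i j : ℕ, i < j → j ≤ n → ∃ k : ℕ, j + k ≤ N ∧ k * d ≤ R j - R i + d ∧
      Θ i ≤ Θ j + C * ((j - i : ℝ) * d) + ε * (R j - R i) + ∑ l ∈ Ico j (j + k), D l + e) :
    Θ 0 ≤ Θ n + ε * (n * d) + C * (((range n).filter fun i => i ∉ G).card * d) +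
      C * (((range N).filter fun j => Rbad D (η * d) N j).card * d) + (ε + η) * (R n - R 0) +
      η * (n * d) + n * e + ∑ l ∈ range N, D l := by
  obtain ⟨B, hB⟩ : ∃ B : ℕ → Prop, B = fun i => i ∉ G ∨ Rbad D (η * d) N i := ⟨_, rfl⟩
  obtain ⟨A, hA⟩ : ∃ A : ℕ → ℝ, A = fun i : ℕ => ε * (i * d) +
    C * (((range i).filter fun l => B l).card * d) + (ε + η) * (R i - R 0) + η * (i * d) + i * e :=
    ⟨_, rfl⟩
  -- one use of the run inequality
  have grow : ∀ i j : ℕ, i < j → (∀ l, i ≤ l → l < j → B l) →
      A i + (C * ((j - i : ℝ) * d) + ε * (R j - R i) + η * (R j - R i + d) + e) ≤ A j := by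
    intro i j hij hall
    have h1 : (((range i).filter fun l => B l).card : ℝ) + (j - i) ≤
        ((range j).filter fun l => B l).card := by
      have h2 : ((range i).filter fun l => B l) ∪ Ico i j ⊆ (range j).filter fun l => B l := by
        intro l hl
        rcases mem_union.1 hl with h | h
        · obtain ⟨h3, h4⟩ := mem_filter.1 h
          exact mem_filter.2 ⟨mem_range.2 (by have := mem_range.1 h3; omega), h4⟩
        · have h3 := mem_Ico.1 h
          exact mem_filter.2 ⟨mem_range.2 h3.2, hall l h3.1 h3.2⟩
      have h3 : Disjoint ((range i).filter fun l => B l) (Ico i j) := by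
        refine Finset.disjoint_left.2 fun l hl hl' => ?_
        have := mem_range.1 (mem_filter.1 hl).1
        have := (mem_Ico.1 hl').1
        omega
      have h4 := card_le_card h2
      rw [card_union_of_disjoint h3, Nat.card_Ico] at h4
      have h5 : ((((range i).filter fun l => B l).card + (j - i) : ℕ) : ℝ) ≤
        ((range j).filter fun l => B l).card := by exact_mod_cast h4
      push_cast [Nat.cast_sub hij.le] at h5
      exact h5
    have hji : (i : ℝ) + 1 ≤ j := by exact_mod_cast hij
    have h6 := mul_le_mul_of_nonneg_left (mul_le_mul_of_nonneg_right h1 hd) hC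
    have h7 : (0 : ℝ) ≤ (j - i - 1) * d := mul_nonneg (by linarith) hd
    have h8 := mul_nonneg hη h7
    have h9 : (0 : ℝ) ≤ (j - i - 1) * e := mul_nonneg (by linarith) he
    have h10 : (0 : ℝ) ≤ ε * ((j - i : ℝ) * d) := mul_nonneg hε (mul_nonneg (by linarith) hd)
    rw [hA]
    simp only
    nlinarith [h6, h8, h9, h10]
  have hRm : ∀ {i j : ℕ}, i ≤ j → 0 ≤ R j - R i := fun h => sub_nonneg.2 (hR h)
  -- induction
  have key : ∀ j, j ≤ n → ∃ i ≤ j, (∀ l, i ≤ l → l < j → B l) ∧ Θ 0 ≤ Θ i + A i := by
    intro j
    induction j with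
    | zero =>
      intro _
      refine ⟨0, le_rfl, fun l h1 h2 => absurd h2 (Nat.not_lt_zero l), ?_⟩
      rw [hA]
      simp
    | succ j ih =>
      intro hj
      obtain ⟨i, hij, hall, hΘ⟩ := ih (by omega)
      by_cases hBj : B j
      · refine ⟨i, by omega, fun l h1 h2 => ?_, hΘ⟩
        rcases Nat.lt_succ_iff_lt_or_eq.1 h2 with h3 | h3
        · exact hall l h1 h3
        · rw [h3]
          exact hBj
      · have hBj' : j ∈ G ∧ ¬ Rbad D (η * d) N j := by
          rw [hB] at hBj
          push Not at hBj
          exact hBj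
        -- at `j`
        have hj0 : Θ 0 ≤ Θ j + A j := by
          rcases hij.eq_or_lt with h | h
          · rw [← h]
            exact hΘ
          · obtain ⟨k, hk1, hk2, hk3⟩ := hX i j h (by omega)
            have h2 : ∑ l ∈ Ico j (j + k), D l ≤ η * (R j - R i + d) := by
              rcases Nat.eq_zero_or_pos k with h3 | h3
              · rw [h3]
                simp
                exact mul_nonneg hη (by have := hRm h.le; linarith)
              · by_contra hcon
                push Not at hcon
                refine hBj'.2 ⟨k, h3, hk1, ?_⟩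
                refine lt_of_le_of_lt ?_ hcon
                have := mul_le_mul_of_nonneg_left hk2 hη
                linarith
            have h3 := grow i j h hall
            linarith
        have hstep := hG j hBj'.1 (by omega)
        have hA1 : A j + ε * d ≤ A (j + 1) := by
          have h1 : (((range j).filter fun l => B l).card : ℝ) ≤
              ((range (j + 1)).filter fun l => B l).card := by
            exact_mod_cast card_le_card (filter_subset_filter _ (range_subset_range.2 (by omega)))
          have h2 := mul_le_mul_of_nonneg_left (mul_le_mul_of_nonneg_right h1 hd) hC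
          have h3 := hR (Nat.le_succ j)
          have h4 : 0 ≤ (ε + η) * (R (j + 1) - R j) :=
            mul_nonneg (by linarith) (sub_nonneg.2 h3)
          have h5 := mul_nonneg hη hd
          rw [hA]
          simp only
          push_cast
          nlinarith [h2, h4, h5, he]
        exact ⟨j + 1, le_rfl, fun l h1 h2 => absurd h2 (by omega), by linarith⟩
  obtain ⟨i, hin, hall, hΘ⟩ := key n le_rfl
  have hT : 0 ≤ ∑ l ∈ range N, D l := Finset.sum_nonneg fun l _ => hD l
  have hfin : Θ 0 ≤ Θ n + A n + ∑ l ∈ range N, D l := by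
    rcases hin.eq_or_lt with h | h
    · rw [← h]
      linarith
    · obtain ⟨k, hk1, hk2, hk3⟩ := hX i n h le_rfl
      have h2 : ∑ l ∈ Ico n (n + k), D l ≤ ∑ l ∈ range N, D l := by
        refine Finset.sum_le_sum_of_subset_of_nonneg ?_ fun l _ _ => hD l
        intro l hl
        exact mem_range.2 (lt_of_lt_of_le (mem_Ico.1 hl).2 hk1)
      have h3 := grow i n h hall
      have h4 : 0 ≤ η * (R n - R i + d) := mul_nonneg hη (by have := hRm h.le; linarith)
      linarith
  refine hfin.trans ?_
  have hcard : (((range n).filter fun l => B l).card : ℝ) ≤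
      ((range n).filter fun i => i ∉ G).card +
        ((range N).filter fun j => Rbad D (η * d) N j).card := by
    have h1 : (range n).filter (fun l => B l) ⊆ (range n).filter (fun i => i ∉ G) ∪
        (range N).filter fun j => Rbad D (η * d) N j := by
      intro l hl
      obtain ⟨h2, h3⟩ := mem_filter.1 hl
      rw [hB] at h3
      have h4 := mem_range.1 h2
      rcases h3 with h3 | h3
      · exact mem_union_left _ (mem_filter.2 ⟨h2, h3⟩)
      · exact mem_union_right _ (mem_filter.2 ⟨mem_range.2 (by omega), h3⟩)
    exact_mod_cast (card_le_card h1).trans (card_union_le _ _)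
  have h6 := mul_le_mul_of_nonneg_left (mul_le_mul_of_nonneg_right hcard hd) hC
  rw [hA]
  simp only
  nlinarith [h6]

end Pool.PC
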