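import Pool.Agent.H74.LK.UMX
import Pool.Agent.H1.LK.MIXL
import Pool.Agent.H1.LK.TRVL

/-!
# Plan C: a large part of a bad family is uniformly bad

`vi` is the mutual information of the line and of the exact point, given the side information.
If every label of `F` costs at least `vi F + ε J`, then there is an event of fixed probability such
that for all its sub-events every label costs at least `vi + ε J / 2` minus the entropy of the
sub-event.
-/

set_option autoImplicit false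

namespace Pool.PC

open Finset Real
open Pool.Agent.H49.Ent Pool.Agent.H32.Dense Pool.STK Pool.KA Pool.KSAT Pool.K2S Pool.LK

variable {m J : ℕ}

/-- The information of the exact point on the line, for another law. -/
noncomputable def viq (F : Fam m J) (q : F.Ω → ℝ) : ℝ :=
  CH q (fun ω => (F.X J ω, F.T ω)) F.Z - CH q F.T (fun ω => (F.l ω, F.Z ω))

/-- The information of the exact point on the line, given the side information. -/
noncomputable def vi (F : Fam m J) : ℝ := viq F F.p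

theorem vi_mix {F : Fam m J} {K : Type} [Fintype K] (c : F.Ω → K) :
    ∑ k, law F.p c k * viq F (Pool.Agent.H49.Ent.cond F.p c k) ≤ vi F + CH F.p c F.Z := by
  have hp := F.isLaw.nonneg
  have h1 := tya_CH_sum hp (fun ω => (F.X J ω, F.T ω)) F.Z c
  have h2 := tya_CH_sum hp F.T (fun ω => (F.l ω, F.Z ω)) c
  have h3 := (tya_CH_le F.isLaw (fun ω => (F.X J ω, F.T ω)) F.Z c).1
  have h4 := CH_le_add hp F.T c (fun ω => (F.l ω, F.Z ω))
  have h5 : CH F.p c (fun ω => (F.l ω, F.Z ω)) ≤ CH F.p c F.Z :=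
    CH_mono_cond hp fun ω ω' _ _ h => (Prod.ext_iff.mp h).2
  have h6 : ∑ k, law F.p c k * viq F (Pool.Agent.H49.Ent.cond F.p c k) =
      CH F.p (fun ω => (F.X J ω, F.T ω)) (fun ω => (c ω, F.Z ω)) -
        CH F.p F.T (fun ω => (c ω, (F.l ω, F.Z ω))) := by
    rw [h1, h2, ← Finset.sum_sub_distrib]
    refine Finset.sum_congr rfl fun k _ => ?_
    unfold viq
    ring
  rw [h6]
  unfold vi viq
  linarith

/-- The trivial label. -/
theorem triv (m : ℕ) {b : ℝ} (hb : 1 ≤ b) : ∃ C : ℝ, 0 ≤ C ∧ ∀ (J : ℕ) (F : Fam m J),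
    ∃ B : Lbl F b, B.cost ≤ vi F + m * (J * Real.log 2) + C := by
  obtain ⟨C, hC, h⟩ := Pool.Agent.H1.LK.trvl_thm m b hb
  refine ⟨C, hC, fun J F => ?_⟩
  obtain ⟨B, hB⟩ := h J F 1 le_rfl
  refine ⟨B, ?_⟩
  have h1 := CH_chain F.isLaw.nonneg (F.X J) F.T F.Z
  have h2 : CH F.p (F.X J) F.W = CH F.p (F.X J) (fun ω => (F.T ω, F.Z ω)) := rfl
  unfold vi viq
  rw [h2] at hB
  linarith

theorem vi_le {F : Fam m J} : 0 ≤ vi F := by
  have hp := F.isLaw.nonneg
  have h1 : CH F.p F.T (fun ω => (F.l ω, F.Z ω)) ≤ CH F.p F.T F.Z :=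
    CH_mono_cond hp fun ω ω' _ _ h => (Prod.ext_iff.mp h).2
  have h2 : CH F.p F.T F.Z ≤ CH F.p (fun ω => (F.X J ω, F.T ω)) F.Z :=
    CH_mono_left hp fun ω ω' _ _ h => (Prod.ext_iff.mp (Prod.ext_iff.mp h).1).2
  unfold vi viq
  linarith

/-- **(UMX for `vi`)** -/
theorem umxv (m : ℕ) {b : ℝ} (hb : 1 ≤ b) {ε : ℝ} (hε : 0 < ε) :
    ∃ ρ > 0, ∃ J₀ : ℕ, ∀ J ≥ J₀, ∀ F : Fam m J,
      (∀ B : Lbl F b, vi F + ε * J ≤ B.cost) →
      ∃ (A : F.Ω → Prop) (h : IsLaw (Pool.Agent.H49.Ent.cond F.p A True)), ρ ≤ Pe F.p A ∧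
        ∀ (A' : F.Ω → Prop) (h' : IsLaw (Pool.Agent.H49.Ent.cond (F.res A True h).p A' True)),
          ∀ B : Lbl ((F.res A True h).res A' True h') b,
            vi ((F.res A True h).res A' True h') + ε / 2 * J +
              2 * Real.log (Pe (F.res A True h).p A') ≤ B.cost := by
  classical
  obtain ⟨C, hC, htriv⟩ := triv m hb
  have hl2 : 0 < Real.log 2 := Real.log_pos (by norm_num)
  obtain ⟨D, hD⟩ : ∃ D : ℝ, D = m * Real.log 2 + C + 1 := ⟨_, rfl⟩
  have hD0 : 0 < D := by rw [hD]; positivity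
  obtain ⟨ρ, hρ⟩ : ∃ ρ : ℝ, ρ = min (ε / (8 * D)) 1 := ⟨_, rfl⟩
  have hρ0 : 0 < ρ := by rw [hρ]; positivity
  have hρ1 : ρ ≤ 1 := by rw [hρ]; exact min_le_right _ _
  have hρD : ρ * D ≤ ε / 8 := by
    have h1 : ρ ≤ ε / (8 * D) := by rw [hρ]; exact min_le_left _ _
    calc ρ * D ≤ ε / (8 * D) * D := mul_le_mul_of_nonneg_right h1 hD0.le
      _ = ε / 8 := by field_simp
  obtain ⟨J₁, hJ₁⟩ := exists_nat_ge (8 * (2 - 2 * Real.log ρ) / ε)
  refine ⟨ρ, hρ0, max J₁ 1, fun J hJ F hF => ?_⟩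
  have hJ1 : (1 : ℝ) ≤ J := by exact_mod_cast (le_max_right _ _).trans hJ
  have hJ0 : (0 : ℝ) < J := by linarith
  have hJ3 : 8 * (2 - 2 * Real.log ρ) ≤ ε * J := by
    have h1 : 8 * (2 - 2 * Real.log ρ) / ε ≤ J :=
      hJ₁.trans (by exact_mod_cast (le_max_left _ _).trans hJ)
    rw [div_le_iff₀ hε] at h1
    linarith
  have hlρ : Real.log ρ ≤ 0 := Real.log_nonpos hρ0.le hρ1
  have hp := F.isLaw.nonneg
  have hεJ : 0 < ε * J := by positivity
  -- the threshold of the bad events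
  obtain ⟨θ, hθ⟩ : ∃ θ : ℝ, θ = ε / 2 * J - 2 * Real.log ρ := ⟨_, rfl⟩
  -- the bad events
  obtain ⟨Bad, hBad⟩ : ∃ Bad : Finset F.Ω → Prop, Bad = fun S =>
      0 < Pe F.p (fun ω => ω ∈ S) ∧ ∃ B : Lbl F b,
        val 0 (Pool.Agent.H49.Ent.cond F.p (fun ω => ω ∈ S) True) B <
          viq F (Pool.Agent.H49.Ent.cond F.p (fun ω => ω ∈ S) True) + θ +
            2 * Real.log (Pe F.p (fun ω => ω ∈ S)) := ⟨_, rfl⟩
  have hBadiff : ∀ S, Bad S ↔ (0 < Pe F.p (fun ω => ω ∈ S) ∧ ∃ B : Lbl F b,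
        val 0 (Pool.Agent.H49.Ent.cond F.p (fun ω => ω ∈ S) True) B <
          viq F (Pool.Agent.H49.Ent.cond F.p (fun ω => ω ∈ S) True) + θ +
            2 * Real.log (Pe F.p (fun ω => ω ∈ S))) := by
    intro S
    rw [hBad]
  have hne : ∀ S, Bad S → S.Nonempty := by
    intro S hS
    by_contra h
    rw [Finset.not_nonempty_iff_eq_empty] at h
    have h1 := ((hBadiff S).1 hS).1
    rw [h, Pool.K2S.Pe_eq] at h1
    simp at h1
  obtain ⟨𝒜, h𝒜1, h𝒜2, h𝒜3⟩ := exists_max_disj Bad hne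
  -- the label
  obtain ⟨c, hc⟩ : ∃ c : F.Ω → Option (Finset F.Ω), c = fun ω =>
      if h : ∃ S, S ∈ 𝒜 ∧ ω ∈ S then some (Classical.choose h) else none := ⟨_, rfl⟩
  have hcmem : ∀ ω S, c ω = some S → S ∈ 𝒜 ∧ ω ∈ S := by
    intro ω S h
    rw [hc] at h
    simp only at h
    split_ifs at h with h1
    · have h2 := Classical.choose_spec h1
      rw [Option.some.injEq] at h
      rw [h] at h2
      exact h2
  have hcsome : ∀ ω S, S ∈ 𝒜 → ω ∈ S → c ω = some S := by
    intro ω S hS hω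
    have h1 : ∃ S, S ∈ 𝒜 ∧ ω ∈ S := ⟨S, hS, hω⟩
    have h2 := Classical.choose_spec h1
    rw [hc]
    simp only
    rw [dif_pos h1, Option.some.injEq]
    exact h𝒜2 _ h2.1 S hS ω h2.2 hω
  have hclaw : ∀ S ∈ 𝒜, Pool.Agent.H49.Ent.cond F.p c (some S) =
      Pool.Agent.H49.Ent.cond F.p (fun ω => ω ∈ S) True ∧
      law F.p c (some S) = Pe F.p (fun ω => ω ∈ S) := by
    intro S hS
    have h1 : (fun ω => c ω = some S) = fun ω => ω ∈ S := by
      funext ω
      exact propext ⟨fun h => (hcmem ω S h).2, hcsome ω S hS⟩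
    have h2 := cond_eq_prop F.p c (some S)
    rw [h1] at h2
    exact h2
  have hclaw0 : ∀ S, S ∉ 𝒜 → law F.p c (some S) = 0 := by
    intro S hS
    unfold law
    refine Finset.sum_eq_zero fun ω _ => ?_
    rw [if_neg fun h => hS (hcmem ω S h).1]
  obtain ⟨A, hAd⟩ : ∃ A : F.Ω → Prop, A = fun ω => c ω = none := ⟨_, rfl⟩
  obtain ⟨hA1, hA2⟩ := cond_eq_prop F.p c none
  rw [← hAd] at hA1 hA2
  -- the label of the rest
  obtain ⟨B₀, hB₀⟩ : ∃ B₀ : Lbl F b, Pe F.p A * val 0 (Pool.Agent.H49.Ent.cond F.p A True) B₀ ≤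
      Pe F.p A * viq F (Pool.Agent.H49.Ent.cond F.p A True) + Pe F.p A * (D * J) := by
    rcases (law_nonneg hp A True).eq_or_lt with h0 | h0
    · obtain ⟨B, -⟩ := htriv J F
      refine ⟨B, ?_⟩
      have e : Pe F.p A = 0 := h0.symm
      rw [e]
      simp
    · have hlaw : IsLaw (Pool.Agent.H49.Ent.cond F.p A True) :=
        ⟨cond_nonneg hp A True, sum_cond F.p A h0.ne'⟩
      obtain ⟨B, hB⟩ := htriv J (F.res A True hlaw)
      refine ⟨B.up, ?_⟩
      have e1 : val 0 (Pool.Agent.H49.Ent.cond F.p A True) B.up = B.cost := by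
        unfold LK.val
        rw [zero_mul, sub_zero]
        rfl
      have e2 : vi (F.res A True hlaw) = viq F (Pool.Agent.H49.Ent.cond F.p A True) := rfl
      rw [e1, ← mul_add]
      refine mul_le_mul_of_nonneg_left ?_ h0.le
      rw [e2] at hB
      refine hB.trans ?_
      have h2 : C ≤ C * J := by nlinarith
      rw [hD]
      have h3 : 0 ≤ (J : ℝ) := hJ0.le
      nlinarith
  obtain ⟨B', hB'⟩ := mixv Pool.Agent.H1.LK.mixl_thm (F := F) (b := b) (le_refl (0 : ℝ)) c
    (fun k => match k with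
      | none => B₀
      | some S => if h : Bad S then Classical.choose ((hBadiff S).1 h).2 else B₀)
  have h1 := hF B'
  have e0 : B'.cost = val 0 F.p B' := by
    unfold LK.val
    rw [zero_mul, sub_zero]
    rfl
  rw [e0] at h1
  have hmix := vi_mix (F := F) c
  have hH : CH F.p c F.Z ≤ H F.p c := by
    unfold CH
    have := subadd F.isLaw.nonneg F.isLaw.sum_one (X := c) (Y := F.Z)
      (W := fun ω => (c ω, F.Z ω)) (fun _ _ _ _ h => h)
    linarith
  rw [H_eq_sum_of_subset F.p c (Finset.subset_univ _), Fintype.sum_option] at hH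
  rw [Fintype.sum_option] at hB' hmix
  simp only at hB'
  have hsum : law F.p c none + ∑ S, law F.p c (some S) = 1 := by
    have := tya_law_sum F.p c
    rwa [Fintype.sum_option, F.isLaw.sum_one] at this
  have hl0 : 0 ≤ law F.p c none := law_nonneg hp c none
  have h2 := negMulLog_le_one' hl0
  have h3 : ∑ S, (2 * negMulLog (law F.p c (some S)) + law F.p c (some S) *
      val 0 (Pool.Agent.H49.Ent.cond F.p c (some S))
        (if h : Bad S then Classical.choose ((hBadiff S).1 h).2 else B₀)) ≤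
      ∑ S, (law F.p c (some S) * viq F (Pool.Agent.H49.Ent.cond F.p c (some S)) +
        law F.p c (some S) * θ) := by
    refine Finset.sum_le_sum fun S _ => ?_
    by_cases hS : S ∈ 𝒜
    · have hb := h𝒜1 S hS
      rw [dif_pos hb, (hclaw S hS).1, (hclaw S hS).2]
      have h4 := ((hBadiff S).1 hb).1
      have h5 := Classical.choose_spec ((hBadiff S).1 hb).2
      have h6 := mul_le_mul_of_nonneg_left h5.le h4.le
      unfold negMulLog
      rw [mul_add, mul_add] at h6
      linarith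
    · rw [hclaw0 S hS]
      simp
  rw [Finset.sum_add_distrib, Finset.sum_add_distrib, ← Finset.sum_mul, ← Finset.mul_sum] at h3
  rw [hA1, hA2] at hB' hmix
  rw [hA2] at hH hsum hl0 h2
  have e : law F.p A True = Pe F.p A := rfl
  rw [e] at hB' hH hsum hl0 h2 hmix
  have h4 : ρ ≤ Pe F.p A := by
    by_contra hcon
    push Not at hcon
    have h5 : ∑ S, law F.p c (some S) = 1 - Pe F.p A := by linarith
    rw [h5] at h3
    have h6 : Pe F.p A * (D * J) ≤ ε / 8 * J := by
      have h7 : Pe F.p A * D ≤ ε / 8 := (mul_le_mul_of_nonneg_right hcon.le hD0.le).trans hρD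
      calc Pe F.p A * (D * J) = Pe F.p A * D * J := by ring
        _ ≤ _ := mul_le_mul_of_nonneg_right h7 hJ0.le
    have hθ0 : 0 ≤ θ := by
      rw [hθ]
      have : 0 ≤ ε / 2 * J := by positivity
      linarith
    have h8 : (1 - Pe F.p A) * θ ≤ θ := by
      have := mul_nonneg hl0 hθ0
      linarith
    linarith
  have hA0 : 0 < Pe F.p A := by linarith
  have h : IsLaw (Pool.Agent.H49.Ent.cond F.p A True) :=
    ⟨cond_nonneg hp A True, sum_cond F.p A hA0.ne'⟩
  refine ⟨A, h, h4, ?_⟩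
  intro A' h' B
  have hq0 : 0 < law (Pool.Agent.H49.Ent.cond F.p A True) A' True := by
    rcases (law_nonneg h.nonneg A' True).eq_or_lt with h5 | h5
    · exfalso
      have h6 := h'.sum_one
      have h7 : ∀ ω, Pool.Agent.H49.Ent.cond (F.res A True h).p A' True ω = 0 := by
        intro ω
        have h8 : law (F.res A True h).p A' True = 0 := h5.symm
        unfold Pool.Agent.H49.Ent.cond
        rw [h8, div_zero, ite_self]
      rw [Finset.sum_eq_zero fun ω _ => h7 ω] at h6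
      exact zero_ne_one h6
    · exact h5
  have h5 : Pe (Pool.Agent.H49.Ent.cond F.p A True) A' =
      Pe F.p (fun ω => A ω ∧ A' ω) / Pe F.p A := Pe_cond A'
  obtain ⟨S, hS⟩ : ∃ S : Finset F.Ω, S = univ.filter fun ω => A ω ∧ A' ω := ⟨_, rfl⟩
  have hS' : (fun ω => ω ∈ S) = fun ω => A ω ∧ A' ω := by
    funext ω
    rw [hS]
    simp
  have h6 : ¬ Bad S := by
    intro hbad
    obtain ⟨S', hS'1, ω, hω1, hω2⟩ := h𝒜3 S hbad
    rw [hS, Finset.mem_filter] at hω1
    have h7 : c ω = none := by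
      have := hω1.2.1
      rwa [hAd] at this
    rw [hcsome ω S' hS'1 hω2] at h7
    exact absurd h7 (by simp)
  rw [hBadiff, hS'] at h6
  push Not at h6
  have h7 : 0 < Pe F.p (fun ω => A ω ∧ A' ω) := by
    have h8 : 0 < Pe F.p (fun ω => A ω ∧ A' ω) / Pe F.p A := by
      rw [← h5]
      exact hq0
    rwa [div_pos_iff_of_pos_right hA0] at h8
  have h8 := h6 h7 (Lbl.up (Lbl.up B))
  have hcc : Pool.Agent.H49.Ent.cond (F.res A True h).p A' True =
      Pool.Agent.H49.Ent.cond F.p (fun ω => A ω ∧ A' ω) True := cond_and hA0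
  have h9 : B.cost =
      val 0 (Pool.Agent.H49.Ent.cond F.p (fun ω => A ω ∧ A' ω) True) (Lbl.up (Lbl.up B)) := by
    rw [← hcc]
    unfold LK.val
    rw [zero_mul, sub_zero]
    rfl
  have h10 : vi ((F.res A True h).res A' True h') =
      viq F (Pool.Agent.H49.Ent.cond F.p (fun ω => A ω ∧ A' ω) True) := by
    rw [← hcc]
    rfl
  rw [h9, h10]
  refine le_trans ?_ h8
  have h11 : Real.log (Pe (F.res A True h).p A') =
      Real.log (Pe F.p (fun ω => A ω ∧ A' ω)) - Real.log (Pe F.p A) := by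
    have h12 : Pe (F.res A True h).p A' = Pe F.p (fun ω => A ω ∧ A' ω) / Pe F.p A := h5
    rw [h12, Real.log_div h7.ne' hA0.ne']
  rw [h11]
  have h12 : Real.log ρ ≤ Real.log (Pe F.p A) := Real.log_le_log hρ0 h4
  rw [hθ]
  linarith

end Pool.PC
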